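import Pool.Agent.H18.TD.Targets

/-!
# MP_58ae59_nt, row RP1: values of integer polynomials in one variable
-/

set_option autoImplicit false

open Polynomial Module Filter Topology Pool.Agent.H18.TD

namespace Pool.Agent.H1.TD

lemma single_eq (m : Unit →₀ ℕ) : m = Finsupp.single () (m ()) := by
  apply Finsupp.ext
  intro i
  cases i
  rw [Finsupp.single_eq_same]

lemma msum (m : Unit →₀ ℕ) : (m.sum fun _ e => e) = m () := by
  rw [Finsupp.sum_fintype _ _ (fun _ => rfl)]
  simp

lemma deg_iff (Φ : MvPolynomial Unit ℤ) (R : ℤ[X]) (h : ∀ m, MvPolynomial.coeff m Φ = R.coeff (m ()))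
    (δ : ℕ) : Φ.totalDegree ≤ δ ↔ R.natDegree ≤ δ := by
  constructor
  · intro h1
    rw [Polynomial.natDegree_le_iff_coeff_eq_zero]
    intro i hi
    have h2 := h (Finsupp.single () i)
    rw [Finsupp.single_eq_same] at h2
    rw [← h2]
    by_contra h3
    have h4 : Finsupp.single () i ∈ Φ.support := MvPolynomial.mem_support_iff.2 h3
    have h5 := MvPolynomial.le_totalDegree h4
    rw [msum, Finsupp.single_eq_same] at h5
    omega
  · intro h1
    unfold MvPolynomial.totalDegree
    apply Finset.sup_le
    intro m hm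
    rw [msum]
    rw [MvPolynomial.mem_support_iff, h] at hm
    exact (Polynomial.le_natDegree_of_ne_zero hm).trans h1

lemma len_eq (Φ : MvPolynomial Unit ℤ) (R : ℤ[X]) (h : ∀ m, MvPolynomial.coeff m Φ = R.coeff (m ())) :
    (∑ m ∈ Φ.support, |((MvPolynomial.coeff m Φ : ℤ) : ℝ)|) =
      ∑ i ∈ R.support, |(R.coeff i : ℝ)| := by
  apply Finset.sum_nbij' (fun m => m ()) (fun i => Finsupp.single () i)
  · intro m hm
    rw [MvPolynomial.mem_support_iff, h] at hm
    exact Polynomial.mem_support_iff.2 hm
  · intro i hi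
    rw [Polynomial.mem_support_iff] at hi
    rw [MvPolynomial.mem_support_iff, h, Finsupp.single_eq_same]
    exact hi
  · intro m _
    exact (single_eq m).symm
  · intro i _
    simp
  · intro m _
    rw [h]

lemma val_eq (Φ : MvPolynomial Unit ℤ) (R : ℤ[X]) (h : ∀ m, MvPolynomial.coeff m Φ = R.coeff (m ()))
    (t : ℂ) : MvPolynomial.aeval (fun _ : Unit => t) Φ = aeval t R := by
  rw [MvPolynomial.aeval_def, MvPolynomial.eval₂_eq', Polynomial.aeval_eq_sum_range,
    ← Polynomial.sum_over_range (p := R) (f := fun i c => c • t ^ i) (fun i => zero_smul _ _)]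
  unfold Polynomial.sum
  apply Finset.sum_nbij' (fun m => m ()) (fun i => Finsupp.single () i)
  · intro m hm
    rw [MvPolynomial.mem_support_iff, h] at hm
    exact Polynomial.mem_support_iff.2 hm
  · intro i hi
    rw [Polynomial.mem_support_iff] at hi
    rw [MvPolynomial.mem_support_iff, h, Finsupp.single_eq_same]
    exact hi
  · intro m _
    exact (single_eq m).symm
  · intro i _
    simp
  · intro m _
    rw [h]
    simp

theorem pf_RP1 : T_RP1 := by
  intro t δ L z
  constructor
  · rintro ⟨Φ, h1, h2, h3⟩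
    set R : ℤ[X] := ∑ m ∈ Φ.support, Polynomial.monomial (m ()) (MvPolynomial.coeff m Φ) with hR
    have h : ∀ m, MvPolynomial.coeff m Φ = R.coeff (m ()) := by
      intro m
      rw [hR, Polynomial.finset_sum_coeff]
      simp only [Polynomial.coeff_monomial]
      rw [Finset.sum_eq_single m]
      · rw [if_pos rfl]
      · intro m' _ hm'
        rw [if_neg]
        intro h4
        exact hm' (by rw [single_eq m', single_eq m, h4])
      · intro hm
        rw [if_pos rfl]
        exact MvPolynomial.notMem_support_iff.1 hm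
    exact ⟨R, (deg_iff Φ R h δ).1 h1, (len_eq Φ R h) ▸ h2, (val_eq Φ R h t) ▸ h3⟩
  · rintro ⟨R, h1, h2, h3⟩
    set Φ : MvPolynomial Unit ℤ := ∑ i ∈ R.support, MvPolynomial.monomial (Finsupp.single () i)
      (R.coeff i) with hΦ
    have h : ∀ m, MvPolynomial.coeff m Φ = R.coeff (m ()) := by
      intro m
      rw [hΦ, MvPolynomial.coeff_sum]
      simp only [MvPolynomial.coeff_monomial]
      rw [Finset.sum_eq_single (m ())]
      · rw [if_pos (single_eq m).symm]
      · intro i _ hi
        rw [if_neg]
        intro h4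
        apply hi
        rw [← h4, Finsupp.single_eq_same]
      · intro hm
        rw [if_pos (single_eq m).symm]
        exact Polynomial.notMem_support_iff.1 hm
    exact ⟨Φ, (deg_iff Φ R h δ).2 h1, (len_eq Φ R h) ▸ h2, (val_eq Φ R h t) ▸ h3⟩

end Pool.Agent.H1.TD
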